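import Pool.Agent.AF21.Final

/-!
# MP_e382fa_ag: maps from the space of polynomials to affine varieties of dimension `l ≤ k/2 - 1`

`k > 4`, `2 l + 2 ≤ k`, `X ⊆ ℂ^n` a closed algebraic subset, smooth of pure dimension `l` (the rank of the
gradients of the polynomials vanishing on `X` is `n - l` at every point of `X`), `G0 k` the space of monic
polynomials `z^k + a_0 z^(k-2) + ... + a_(k-2)` without multiple roots. Then every continuous map `g : G0 k → X`
(holomorphic or not, `X` connected or not) induces on fundamental groups a homomorphism with abelian image.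

The proof is in `Pool/Agent/AF21` (overview in `Pool/Agent/AF21/Defs.lean`): tori of dimension `l + 1` in `X` have
null-homotopic loops which are not divisible by a given prime `p` (a form of the theorem of Andreotti and Frankel
on the homotopy dimension of `X`, proved here by a discrete gradient flow and a generic grid), and this, applied to
the torus of `l + 1` disjoint half twists of the braid group of `k` strings, forces all standard generators to
have the same image.
-/

set_option autoImplicit false

namespace Pool.Agent.Results.MP_e382fa_ag.HalfDimension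

/-- `X` is the common zero set of a set of polynomials -/
def IsAlgebraicSet {n : ℕ} (X : Set (Fin n → ℂ)) : Prop :=
  ∃ S : Set (MvPolynomial (Fin n) ℂ), X = {x | ∀ p ∈ S, MvPolynomial.eval x p = 0}

/-- the gradients at `x` of the polynomials which vanish on `X` -/
def gradients {n : ℕ} (X : Set (Fin n → ℂ)) (x : Fin n → ℂ) : Set (Fin n → ℂ) :=
  {v | ∃ p : MvPolynomial (Fin n) ℂ, (∀ y ∈ X, MvPolynomial.eval y p = 0) ∧
    v = fun i => MvPolynomial.eval x (MvPolynomial.pderiv i p)}

/-- `X` is smooth of pure dimension `l`: the gradients have rank `n - l` at every point of `X` -/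
def IsSmoothOfPureDim {n : ℕ} (l : ℕ) (X : Set (Fin n → ℂ)) : Prop :=
  l ≤ n ∧ ∀ x ∈ X, Module.finrank ℂ (Submodule.span ℂ (gradients X x)) = n - l

/-- the monic polynomials `z^k + a_0 z^(k-2) + ... + a_(k-2)` without multiple roots -/
def G0 (k : ℕ) : Set (Fin (k - 1) → ℂ) :=
  {a | (Polynomial.X ^ k + ∑ i : Fin (k - 1),
    Polynomial.C (a i) * Polynomial.X ^ (k - 2 - (i : ℕ))).Separable}

/-- the homomorphisms of fundamental groups induced by `g` have abelian image (all base points) -/
def IsAbelianOnPi1 {A B : Type} [TopologicalSpace A] [TopologicalSpace B] (g : C(A, B)) : Prop :=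
  ∀ (a : A) (α β : FundamentalGroup A a),
    Commute (FundamentalGroup.map g a α) (FundamentalGroup.map g a β)

theorem result (k l n : ℕ) (hk : 4 < k) (hl : 2 * l + 2 ≤ k) (X : Set (Fin n → ℂ))
    (hX : IsAlgebraicSet X) (hs : IsSmoothOfPureDim l X) (g : C(G0 k, X)) : IsAbelianOnPi1 g :=
  fun a α β => AF21.main hk hl hs.1 X hX hs.2 (G0 k) rfl g a α β

end Pool.Agent.Results.MP_e382fa_ag.HalfDimension
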