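import Pool.Agent.TF49.Concl

/-!
# MP_e382fa_ag: maps with torsion-free image, in the range `l ≤ 2 ⌊k/2⌋ - 2`

`k > 4`, `l + 2 ≤ 2 ⌊k/2⌋` (for even `k` this is the whole range `l ≤ k - 2` of the question, for odd `k` it is
`l ≤ k - 3`), `X ⊆ ℂ^n` a closed algebraic subset, smooth of pure dimension `l`, `G0 k` the space of monic
polynomials `z^k + a_0 z^(k-2) + ... + a_(k-2)` without multiple roots, `g : G0 k → X` continuous (holomorphic or
not). If the image of `g` on fundamental groups has no elements of finite order except `1` (for example if the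
fundamental group of `X` is torsion-free), then this image is abelian.

The proof is in `Pool/Agent/TF49` (and uses `Pool/Agent/AF21`): the torus of dimension `2 ⌊k/2⌋ - 1` in `G0 k` given by two
disjoint clusters of `⌊k/2⌋` points on concentric circles and a rotation of the whole configuration has, in `X`, a
null-homotopic loop whose class is not divisible by `2`. Its basis loops are the full twists of nested blocks of
strands, and in a torsion-free quotient of the braid group such a relation between full twists forces all
standard generators to be equal.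
-/

set_option autoImplicit false

namespace Pool.Agent.Results.MP_e382fa_ag.TorsionFree

/-- `X` is the common zero set of a set of polynomials -/
def IsAlgebraicSet {n : ℕ} (X : Set (Fin n → ℂ)) : Prop :=
  ∃ S : Set (MvPolynomial (Fin n) ℂ), X = {x | ∀ p ∈ S, MvPolynomial.eval x p = 0}

/-- the gradients at `x` of the polynomials which vanish on `X` -/
def gradients {n : ℕ} (X : Set (Fin n → ℂ)) (x : Fin n → ℂ) : Set (Fin n → ℂ) :=
  {v | ∃ p : MvPolynomial (Fin n) ℂ, (∀ y ∈ X, MvPolynomial.eval y p = 0) ∧
    v = fun i => MvPolynomial.eval x (MvPolynomial.pderiv i p)}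

/-- `X` is smooth of pure dimension `l`: the gradients have rank `n - l` at every point of `X` -/
def IsSmoothOfPureDim {n : ℕ} (l : ℕ) (X : Set (Fin n → ℂ)) : Prop :=
  l ≤ n ∧ ∀ x ∈ X, Module.finrank ℂ (Submodule.span ℂ (gradients X x)) = n - l

/-- the monic polynomials `z^k + a_0 z^(k-2) + ... + a_(k-2)` without multiple roots -/
def G0 (k : ℕ) : Set (Fin (k - 1) → ℂ) :=
  {a | (Polynomial.X ^ k + ∑ i : Fin (k - 1),
    Polynomial.C (a i) * Polynomial.X ^ (k - 2 - (i : ℕ))).Separable}

/-- the homomorphisms of fundamental groups induced by `g` have abelian image (all base points) -/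
def IsAbelianOnPi1 {A B : Type} [TopologicalSpace A] [TopologicalSpace B] (g : C(A, B)) : Prop :=
  ∀ (a : A) (α β : FundamentalGroup A a),
    Commute (FundamentalGroup.map g a α) (FundamentalGroup.map g a β)

/-- the images of the homomorphisms of fundamental groups induced by `g` have no elements of finite order
except the identity (all base points) -/
def HasTorsionFreeImage {A B : Type} [TopologicalSpace A] [TopologicalSpace B] (g : C(A, B)) : Prop :=
  ∀ (a : A) (α : FundamentalGroup A a) (n : ℕ), n ≠ 0 → (FundamentalGroup.map g a α) ^ n = 1 →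
    FundamentalGroup.map g a α = 1

theorem result (k l n : ℕ) (hk : 4 < k) (hl : l + 2 ≤ 2 * (k / 2)) (X : Set (Fin n → ℂ))
    (hX : IsAlgebraicSet X) (hs : IsSmoothOfPureDim l X) (g : C(G0 k, X)) (hg : HasTorsionFreeImage g) :
    IsAbelianOnPi1 g :=
  fun a α β => TF49.main hk hl hs.1 X hX hs.2 (G0 k) rfl g hg a α β

end Pool.Agent.Results.MP_e382fa_ag.TorsionFree
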